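import Mathlib

/-!
The order of growth of the maximal reciprocal sum `M(k)` of irreducible covering sets of size `k`
is `log k`.
-/

namespace Pool.Agent.Results.MP_cc5630_nt.OrderOfGrowth

open Finset

/-- `S` is a covering set: all elements are `> 1` and there is a choice of one residue for each
modulus in `S` such that every integer lies in one of the chosen classes. -/
def IsCoveringSet (S : Finset ℕ) : Prop :=
  (∀ n ∈ S, 1 < n) ∧ ∃ a : ℕ → ℤ, ∀ z : ℤ, ∃ n ∈ S, z ≡ a n [ZMOD (n : ℤ)]

/-- `S` is an irreducible covering set: no proper subset is a covering set. -/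
def IsIrredCoveringSet (S : Finset ℕ) : Prop :=
  IsCoveringSet S ∧ ∀ T : Finset ℕ, T ⊂ S → ¬ IsCoveringSet T

/-- `maxRecip k` is the supremum of the reciprocal sums of irreducible covering sets of size `k`
(with value `0` if there are none). -/
noncomputable def maxRecip (k : ℕ) : ℝ :=
  sSup {x : ℝ | ∃ S : Finset ℕ, S.card = k ∧ IsIrredCoveringSet S ∧ x = ∑ n ∈ S, (1 : ℝ) / n}

/-- The working notion for the construction. -/
structure Good (N : ℕ) (A : Finset ℕ) : Prop where
  pos : 0 < N
  dvd : ∀ n ∈ A, n ∣ N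
  gt_one : ∀ n ∈ A, 1 < n
  cover : ∃ a : ℕ → ℤ, ∃ r : ℤ, ∀ z : ℤ, (∃ n ∈ A, z ≡ a n [ZMOD (n : ℤ)]) ∨ z ≡ r [ZMOD (N : ℤ)]
  uncover : ∀ a : ℕ → ℤ, ∃ r : ℤ, ∀ n ∈ A, ¬ r ≡ a n [ZMOD (n : ℤ)]
  uncover2 : ∀ n₀ ∈ A, ∀ a : ℕ → ℤ, ∃ r r' : ℤ, ¬ r ≡ r' [ZMOD (N : ℤ)] ∧
    (∀ n ∈ A, n ≠ n₀ → ¬ r ≡ a n [ZMOD (n : ℤ)]) ∧
    (∀ n ∈ A, n ≠ n₀ → ¬ r' ≡ a n [ZMOD (n : ℤ)])

theorem good_one : Good 1 ∅ where
  pos := one_pos
  dvd := by simp
  gt_one := by simp
  cover := ⟨fun _ => 0, 0, fun z => Or.inr (by simp [Int.modEq_one])⟩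
  uncover := fun _ => ⟨0, by simp⟩
  uncover2 := by simp

/-- The new moduli at a level. -/
def level (m q : ℕ) : Finset ℕ := (Finset.Icc 1 (q - 1)).image (fun d => m * d)

theorem mem_level {m q n : ℕ} : n ∈ level m q ↔ ∃ d, 1 ≤ d ∧ d ≤ q - 1 ∧ m * d = n := by
  simp [level, and_assoc]

theorem card_level {m q : ℕ} (hm : 0 < m) : (level m q).card = q - 1 := by
  rw [level, Finset.card_image_of_injective _ (fun a b h => Nat.eq_of_mul_eq_mul_left hm h)]
  simp

theorem step_aux {N q m : ℕ} (hq : q.Prime) (hmN : ¬ m ∣ N) (j : ℕ)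
    (hm : m = q ^ (j + 1)) (hj : q ^ j ∣ N) {n : ℕ} (hn : n ∈ level m q) (r c : ℤ) (i i' : ℕ)
    (hi : i < q) (hi' : i' < q)
    (h : r + N * i ≡ c [ZMOD (n : ℤ)]) (h' : r + N * i' ≡ c [ZMOD (n : ℤ)]) : i = i' := by
  obtain ⟨d, -, -, rfl⟩ := mem_level.1 hn
  have h1 : r + N * i ≡ r + N * i' [ZMOD (m : ℤ)] := by
    have := (h.trans h'.symm)
    refine this.of_dvd ?_
    exact ⟨d, by push_cast; ring⟩
  have h2 : (m : ℤ) ∣ (N : ℤ) * ((i' : ℤ) - i) := by
    have := h1.dvd
    have e : (r + N * i' - (r + N * i) : ℤ) = (N : ℤ) * ((i' : ℤ) - i) := by ring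
    rwa [e] at this
  obtain ⟨N', rfl⟩ := hj
  have hq0 : (q : ℤ) ^ j ≠ 0 := by
    have := hq.pos
    positivity
  have h3 : (q : ℤ) ∣ (N' : ℤ) * ((i' : ℤ) - i) := by
    rw [hm] at h2
    push_cast at h2
    rw [pow_succ, mul_assoc] at h2
    exact (mul_dvd_mul_iff_left hq0).1 h2
  have hqN' : ¬ (q : ℤ) ∣ (N' : ℤ) := by
    intro h
    apply hmN
    rw [hm, pow_succ]
    exact mul_dvd_mul_left _ (by exact_mod_cast h)
  have hp : Prime (q : ℤ) := Nat.prime_iff_prime_int.1 hq
  have h4 : (q : ℤ) ∣ ((i' : ℤ) - i) := (hp.dvd_or_dvd h3).resolve_left hqN'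
  have h5 : (i : ℤ) ≡ i' [ZMOD (q : ℤ)] := (Int.modEq_iff_dvd).2 h4
  have h6 : i ≡ i' [MOD q] := by exact_mod_cast h5
  exact Nat.ModEq.eq_of_lt_of_lt h6 hi hi'

/-- Pigeonhole: fewer bad moduli than lifts. -/
theorem exists_lift {q : ℕ} (B : Finset ℕ) (P : ℕ → ℕ → Prop)
    [DecidablePred fun i => ∀ n ∈ B, ¬ P n i]
    (huniq : ∀ n ∈ B, ∀ i i', i < q → i' < q → P n i → P n i' → i = i') :
    q - B.card ≤ ((Finset.range q).filter (fun i => ∀ n ∈ B, ¬ P n i)).card := by
  classical
  have h1 : (Finset.range q) = ((Finset.range q).filter (fun i => ∀ n ∈ B, ¬ P n i)) ∪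
      ((Finset.range q).filter (fun i => ∃ n ∈ B, P n i)) := by
    ext i
    simp only [mem_union, mem_filter, mem_range]
    constructor
    · intro hi
      by_cases h : ∀ n ∈ B, ¬ P n i
      · exact Or.inl ⟨hi, h⟩
      · push Not at h
        exact Or.inr ⟨hi, h⟩
    · rintro (h | h) <;> exact h.1
  have h2 : ((Finset.range q).filter (fun i => ∃ n ∈ B, P n i)).card ≤ B.card := by
    have hsub : ((Finset.range q).filter (fun i => ∃ n ∈ B, P n i)) ⊆
        B.biUnion (fun n => (Finset.range q).filter (fun i => P n i)) := by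
      intro i hi
      simp only [mem_filter, mem_range, mem_biUnion] at hi ⊢
      obtain ⟨hi, n, hn, hP⟩ := hi
      exact ⟨n, hn, hi, hP⟩
    refine (Finset.card_le_card hsub).trans ?_
    refine (Finset.card_biUnion_le).trans ?_
    have : ∀ n ∈ B, ((Finset.range q).filter (fun i => P n i)).card ≤ 1 := by
      intro n hn
      rw [Finset.card_le_one]
      intro i hi i' hi'
      simp only [mem_filter, mem_range] at hi hi'
      exact huniq n hn i i' hi.1 hi'.1 hi.2 hi'.2
    calc ∑ u ∈ B, ((Finset.range q).filter (fun i => P u i)).card ≤ ∑ u ∈ B, 1 :=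
          Finset.sum_le_sum this
      _ = B.card := by simp
  have h3 := Finset.card_union_le ((Finset.range q).filter (fun i => ∀ n ∈ B, ¬ P n i))
    ((Finset.range q).filter (fun i => ∃ n ∈ B, P n i))
  rw [← h1, card_range] at h3
  omega

theorem Good.step {N : ℕ} {A : Finset ℕ} (hG : Good N A) {q m : ℕ} (hq : q.Prime)
    (hmN : ¬ m ∣ N) (j : ℕ) (hm : m = q ^ (j + 1)) (hj : q ^ j ∣ N)
    (hd : ∀ d, 1 ≤ d → d < q → d ∣ N) : Good (N * q) (A ∪ level m q) := by
  classical
  have hm1 : 1 < m := by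
    rw [hm]; exact Nat.one_lt_pow (by omega) hq.one_lt
  have hlevdvd : ∀ n ∈ level m q, n ∣ N * q := by
    intro n hn
    obtain ⟨d, hd1, hd2, rfl⟩ := mem_level.1 hn
    have hdq : d < q := by have := hq.pos; omega
    have hcop : Nat.Coprime (q ^ j) d := by
      apply Nat.Coprime.pow_left
      rw [hq.coprime_iff_not_dvd]
      exact Nat.not_dvd_of_pos_of_lt hd1 hdq
    have h1 : q ^ j * d ∣ N := hcop.mul_dvd_of_dvd_of_dvd hj (hd d hd1 hdq)
    rw [hm]
    have : q ^ (j + 1) * d = q ^ j * d * q := by ring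
    rw [this]
    exact mul_dvd_mul_right h1 q
  have hnotmem : ∀ n ∈ level m q, ¬ n ∣ N := by
    intro n hn hnN
    obtain ⟨d, hd1, hd2, rfl⟩ := mem_level.1 hn
    exact hmN ((dvd_mul_right m d).trans hnN)
  -- lifting
  have hliftA : ∀ (a : ℕ → ℤ) (r : ℤ) (i : ℕ) (n : ℕ), n ∈ A → ¬ r ≡ a n [ZMOD (n : ℤ)] →
      ¬ (r + N * i) ≡ a n [ZMOD (n : ℤ)] := by
    intro a r i n hn h h'
    apply h
    have : r ≡ r + N * i [ZMOD (n : ℤ)] := by
      rw [Int.modEq_iff_dvd]
      have hh : (n : ℤ) ∣ (N : ℤ) := by exact_mod_cast hG.dvd n hn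
      have e : (r + N * i - r : ℤ) = N * i := by ring
      rw [e]
      exact Dvd.dvd.mul_right hh _
    exact this.trans h'
  have hlift : ∀ (a : ℕ → ℤ) (r : ℤ) (B : Finset ℕ), B ⊆ level m q →
      q - B.card ≤ ((Finset.range q).filter
        (fun i : ℕ => ∀ n ∈ B, ¬ (r + N * (i : ℤ)) ≡ a n [ZMOD (n : ℤ)])).card := by
    intro a r B hB
    apply exists_lift B (fun n i => (r + N * (i : ℤ)) ≡ a n [ZMOD (n : ℤ)])
    intro n hn i i' hi hi' h h'
    exact step_aux hq hmN j hm hj (hB hn) r (a n) i i' hi hi' h h'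
  have hcard : (level m q).card = q - 1 := card_level (by omega)
  have hN0 : (N : ℤ) ≠ 0 := by exact_mod_cast hG.pos.ne'
  refine ⟨Nat.mul_pos hG.pos hq.pos, ?_, ?_, ?_, ?_, ?_⟩
  · intro n hn
    rcases Finset.mem_union.1 hn with h | h
    · exact (hG.dvd n h).trans (dvd_mul_right _ _)
    · exact hlevdvd n h
  · intro n hn
    rcases Finset.mem_union.1 hn with h | h
    · exact hG.gt_one n h
    · obtain ⟨d, hd1, hd2, rfl⟩ := mem_level.1 h
      calc 1 < m := hm1
        _ ≤ m * d := Nat.le_mul_of_pos_right m hd1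
  · -- cover
    obtain ⟨a, r, h⟩ := hG.cover
    refine ⟨fun n => if n ∈ level m q then r + N * ((n / m : ℕ) : ℤ) else a n, r, ?_⟩
    intro z
    rcases h z with ⟨n, hn, hz⟩ | hz
    · left
      refine ⟨n, Finset.mem_union_left _ hn, ?_⟩
      have : n ∉ level m q := fun hh => hnotmem n hh (hG.dvd n hn)
      simp only [this, if_false]
      exact hz
    · obtain ⟨t, ht⟩ := hz.symm.dvd
      -- z - r = N * t
      have hqpos : (0 : ℤ) < q := by exact_mod_cast hq.pos
      set i : ℤ := t % q with hi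
      have hi0 : 0 ≤ i := Int.emod_nonneg _ hqpos.ne'
      have hiq : i < q := Int.emod_lt_of_pos _ hqpos
      obtain ⟨i', hi'⟩ := Int.eq_ofNat_of_zero_le hi0
      have hzi : z ≡ r + N * i [ZMOD ((N * q : ℕ) : ℤ)] := by
        rw [Int.modEq_iff_dvd]
        have e1 : t = q * (t / q) + i := (Int.mul_ediv_add_emod t q).symm
        refine ⟨-(t / q), ?_⟩
        have e2 : z = r + N * t := by linarith
        rw [e2]
        push_cast
        have : (r + N * i - (r + N * t) : ℤ) = N * (i - t) := by ring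
        rw [this]
        have e3 : i - t = q * (-(t / q)) := by linarith
        rw [e3]; ring
      by_cases hi00 : i' = 0
      · right
        rw [hi', hi00] at hzi
        simpa using hzi
      · left
        have hmem : m * i' ∈ level m q := by
          rw [mem_level]
          refine ⟨i', by omega, ?_, rfl⟩
          have : (i' : ℤ) < q := by rw [← hi']; exact hiq
          have : i' < q := by exact_mod_cast this
          omega
        refine ⟨m * i', Finset.mem_union_right _ hmem, ?_⟩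
        simp only [hmem, if_true]
        rw [Nat.mul_div_cancel_left _ (by omega : 0 < m)]
        rw [hi'] at hzi
        refine hzi.of_dvd ?_
        exact_mod_cast hlevdvd _ hmem
  · -- uncover
    intro a
    obtain ⟨r, hr⟩ := hG.uncover a
    have h1 := hlift a r (level m q) (Finset.Subset.refl _)
    rw [hcard] at h1
    have h2 : 0 < ((Finset.range q).filter
        (fun i : ℕ => ∀ n ∈ level m q, ¬ (r + N * (i : ℤ)) ≡ a n [ZMOD (n : ℤ)])).card := by
      have := hq.pos
      omega
    obtain ⟨i, hi⟩ := Finset.card_pos.1 h2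
    simp only [mem_filter, mem_range] at hi
    refine ⟨r + N * i, ?_⟩
    intro n hn
    rcases Finset.mem_union.1 hn with h | h
    · exact hliftA a r i n h (hr n h)
    · exact hi.2 n h
  · -- uncover2
    intro n₀ hn₀ a
    rcases Finset.mem_union.1 hn₀ with h | h
    · obtain ⟨r, r', hrr', hr, hr'⟩ := hG.uncover2 n₀ h a
      have key : ∀ s : ℤ, (∀ n ∈ A, n ≠ n₀ → ¬ s ≡ a n [ZMOD (n : ℤ)]) →
          ∃ i : ℕ, ∀ n ∈ A ∪ level m q, n ≠ n₀ → ¬ (s + N * i) ≡ a n [ZMOD (n : ℤ)] := by
        intro s hs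
        have h1 := hlift a s (level m q) (Finset.Subset.refl _)
        rw [hcard] at h1
        have h2 : 0 < ((Finset.range q).filter
            (fun i : ℕ => ∀ n ∈ level m q, ¬ (s + N * (i : ℤ)) ≡ a n [ZMOD (n : ℤ)])).card := by
          have := hq.pos
          omega
        obtain ⟨i, hi⟩ := Finset.card_pos.1 h2
        simp only [mem_filter, mem_range] at hi
        refine ⟨i, ?_⟩
        intro n hn hne
        rcases Finset.mem_union.1 hn with h | h
        · exact hliftA a s i n h (hs n h hne)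
        · exact hi.2 n h
      obtain ⟨i, hi⟩ := key r hr
      obtain ⟨i', hi'⟩ := key r' hr'
      refine ⟨r + N * i, r' + N * i', ?_, hi, hi'⟩
      intro hcon
      apply hrr'
      have h1 : r + N * i ≡ r' + N * i' [ZMOD (N : ℤ)] := by
        refine hcon.of_dvd ?_
        push_cast
        exact dvd_mul_right _ _
      have h2 : r ≡ r + N * i [ZMOD (N : ℤ)] := by
        rw [Int.modEq_iff_dvd]; exact ⟨i, by ring⟩
      have h3 : r' ≡ r' + N * i' [ZMOD (N : ℤ)] := by
        rw [Int.modEq_iff_dvd]; exact ⟨i', by ring⟩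
      exact h2.trans (h1.trans h3.symm)
    · obtain ⟨r, hr⟩ := hG.uncover a
      have h1 := hlift a r ((level m q).erase n₀) (Finset.erase_subset _ _)
      rw [Finset.card_erase_of_mem h, hcard] at h1
      have h2 : 1 < ((Finset.range q).filter
          (fun i : ℕ => ∀ n ∈ (level m q).erase n₀,
            ¬ (r + N * (i : ℤ)) ≡ a n [ZMOD (n : ℤ)])).card := by
        have := hq.two_le
        have hc : 0 < (level m q).card := Finset.card_pos.2 ⟨n₀, h⟩
        rw [hcard] at hc
        omega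
      obtain ⟨i, hi, i', hi', hne⟩ := Finset.one_lt_card.1 h2
      simp only [mem_filter, mem_range] at hi hi'
      refine ⟨r + N * i, r + N * i', ?_, ?_, ?_⟩
      · intro hcon
        apply hne
        have h3 : ((N * q : ℕ) : ℤ) ∣ (N : ℤ) * ((i' : ℤ) - i) := by
          have := hcon.dvd
          have e : (r + N * i' - (r + N * i) : ℤ) = (N : ℤ) * ((i' : ℤ) - i) := by ring
          rwa [e] at this
        push_cast at h3
        have h4 : (q : ℤ) ∣ ((i' : ℤ) - i) := (mul_dvd_mul_iff_left hN0).1 h3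
        have h5 : (i : ℤ) ≡ i' [ZMOD (q : ℤ)] := (Int.modEq_iff_dvd).2 h4
        have h6 : i ≡ i' [MOD q] := by exact_mod_cast h5
        exact Nat.ModEq.eq_of_lt_of_lt h6 hi.1 hi'.1
      · intro n hn hne
        rcases Finset.mem_union.1 hn with h | h
        · exact hliftA a r i n h (hr n h)
        · exact hi.2 n (Finset.mem_erase.2 ⟨hne, h⟩)
      · intro n hn hne
        rcases Finset.mem_union.1 hn with h | h
        · exact hliftA a r i' n h (hr n h)
        · exact hi'.2 n (Finset.mem_erase.2 ⟨hne, h⟩)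

theorem level_disjoint {N : ℕ} {A : Finset ℕ} (hG : Good N A) {q m : ℕ} (hmN : ¬ m ∣ N) :
    Disjoint A (level m q) := by
  rw [Finset.disjoint_left]
  intro n hn hn'
  obtain ⟨d, -, -, rfl⟩ := mem_level.1 hn'
  exact hmN ((dvd_mul_right m d).trans (hG.dvd _ hn))

/-- Closing off: `A ∪ {N}` is an irreducible covering set. -/
theorem Good.irred {N : ℕ} {A : Finset ℕ} (hG : Good N A) (hN : N ∉ A) (hN1 : 1 < N) :
    IsIrredCoveringSet (insert N A) := by
  classical
  constructor
  · refine ⟨?_, ?_⟩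
    · intro n hn
      rcases Finset.mem_insert.1 hn with rfl | h
      · exact hN1
      · exact hG.gt_one n h
    · obtain ⟨a, r, h⟩ := hG.cover
      refine ⟨fun n => if n = N then r else a n, ?_⟩
      intro z
      rcases h z with ⟨n, hn, hz⟩ | hz
      · refine ⟨n, Finset.mem_insert_of_mem hn, ?_⟩
        have : n ≠ N := fun h => hN (h ▸ hn)
        simpa [this] using hz
      · exact ⟨N, Finset.mem_insert_self _ _, by simpa using hz⟩
  · intro T hT hcov
    obtain ⟨-, a, ha⟩ := hcov
    obtain ⟨hsub, hne⟩ := Finset.ssubset_iff_subset_ne.1 hT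
    have : ∃ n₀ ∈ insert N A, n₀ ∉ T := by
      by_contra hcon
      push Not at hcon
      exact hne (Finset.Subset.antisymm hsub hcon)
    obtain ⟨n₀, hn₀, hn₀T⟩ := this
    rcases Finset.mem_insert.1 hn₀ with rfl | hA
    · obtain ⟨r, hr⟩ := hG.uncover a
      obtain ⟨n, hn, hz⟩ := ha r
      rcases Finset.mem_insert.1 (hsub hn) with rfl | h
      · exact hn₀T hn
      · exact hr n h hz
    · obtain ⟨r, r', hrr', hr, hr'⟩ := hG.uncover2 n₀ hA a
      obtain ⟨n, hn, hz⟩ := ha r
      obtain ⟨n', hn', hz'⟩ := ha r'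
      have hnN : n = N := by
        rcases Finset.mem_insert.1 (hsub hn) with h | h
        · exact h
        · exfalso
          exact hr n h (fun e => hn₀T (e ▸ hn)) hz
      have hnN' : n' = N := by
        rcases Finset.mem_insert.1 (hsub hn') with h | h
        · exact h
        · exfalso
          exact hr' n' h (fun e => hn₀T (e ▸ hn')) hz'
      subst hnN
      subst hnN'
      exact hrr' (hz.trans hz'.symm)

/-- Invariant on `N`: its prime power divisors are exactly the prime powers up to `y`. -/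
def Inv (y N : ℕ) : Prop := 0 < N ∧ ∀ m, IsPrimePow m → (m ∣ N ↔ m ≤ y)

theorem Inv.dvd_of_le {y N : ℕ} (h : Inv y N) {d : ℕ} (hd0 : 1 ≤ d) (hd : d ≤ y) : d ∣ N := by
  rw [Nat.dvd_iff_prime_pow_dvd_dvd]
  intro p k hp hpk
  rcases Nat.eq_zero_or_pos k with rfl | hk
  · simp
  · have h1 : IsPrimePow (p ^ k) := ⟨p, k, hp.prime, hk, rfl⟩
    exact (h.2 _ h1).2 ((Nat.le_of_dvd hd0 hpk).trans hd)

theorem exists_good (y : ℕ) : ∃ N A, Good N A ∧ Inv y N ∧ A.card ≤ y ^ 2 ∧
    ∑ n ∈ Finset.Icc 1 y, ArithmeticFunction.vonMangoldt n / n ≤ ∑ n ∈ A, (1 : ℝ) / n := by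
  induction y with
  | zero =>
    refine ⟨1, ∅, good_one, ⟨one_pos, ?_⟩, by simp, by simp⟩
    intro m hm
    have := hm.one_lt
    constructor
    · intro h
      have := Nat.le_of_dvd one_pos h
      omega
    · intro h; omega
  | succ y ih =>
    obtain ⟨N, A, hG, hI, hc, hs⟩ := ih
    by_cases hpp : IsPrimePow (y + 1)
    · obtain ⟨q, k, hq, hk, hqk⟩ := (isPrimePow_nat_iff _).1 hpp
      obtain ⟨j, rfl⟩ : ∃ j, k = j + 1 := ⟨k - 1, by omega⟩
      have hmN : ¬ (y + 1) ∣ N := by
        rw [hI.2 _ hpp]; omega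
      have hqy : q ≤ y + 1 := by
        rw [← hqk]
        exact Nat.le_self_pow (by omega) q
      have hj : q ^ j ∣ N := by
        rcases Nat.eq_zero_or_pos j with rfl | hj
        · simp
        · have h1 : IsPrimePow (q ^ j) := ⟨q, j, hq.prime, hj, rfl⟩
          rw [hI.2 _ h1]
          have : q ^ j < q ^ (j + 1) := Nat.pow_lt_pow_right hq.one_lt (by omega)
          omega
      have hd : ∀ d, 1 ≤ d → d < q → d ∣ N := fun d h1 h2 => hI.dvd_of_le h1 (by omega)
      have hG' := hG.step hq hmN j hqk.symm hj hd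
      have hdisj := level_disjoint (q := q) hG hmN
      refine ⟨N * q, A ∪ level (y + 1) q, hG', ?_, ?_, ?_⟩
      · refine ⟨Nat.mul_pos hG.pos hq.pos, ?_⟩
        intro m hm
        obtain ⟨r, i, hr, hi, rfl⟩ := (isPrimePow_nat_iff _).1 hm
        obtain ⟨i, rfl⟩ : ∃ i', i = i' + 1 := ⟨i - 1, by omega⟩
        constructor
        · intro h
          by_cases hrq : r = q
          · subst hrq
            have h1 : r ^ i ∣ N := by
              rw [pow_succ] at h
              exact Nat.dvd_of_mul_dvd_mul_right hr.pos h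
            have h2 : i ≤ j := by
              by_contra hcon
              push Not at hcon
              apply hmN
              rw [← hqk]
              exact (pow_dvd_pow r (by omega)).trans h1
            rw [← hqk]
            exact Nat.pow_le_pow_right hr.pos (by omega)
          · have hcop : Nat.Coprime (r ^ (i + 1)) q :=
              Nat.Coprime.pow_left _ ((Nat.coprime_primes hr hq).2 hrq)
            have h1 := hcop.dvd_of_dvd_mul_right h
            have := (hI.2 _ hm).1 h1
            omega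
        · intro h
          rcases Nat.lt_or_ge y (r ^ (i + 1)) with h1 | h1
          · have h2 : r ^ (i + 1) = y + 1 := by omega
            rw [h2, ← hqk, pow_succ]
            exact mul_dvd_mul_right hj q
          · exact ((hI.2 _ hm).2 h1).trans (dvd_mul_right _ _)
      · refine (Finset.card_union_le _ _).trans ?_
        rw [card_level (by omega)]
        nlinarith [Nat.sub_le q 1]
      · rw [Finset.sum_union hdisj, Finset.sum_Icc_succ_top (by omega)]
        refine add_le_add hs ?_
        have hΛ : ArithmeticFunction.vonMangoldt (y + 1) = Real.log q := by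
          rw [← hqk, ArithmeticFunction.vonMangoldt_apply_pow (by omega),
            ArithmeticFunction.vonMangoldt_apply_prime hq]
        have hinj : Set.InjOn (fun d => (y + 1) * d) (Finset.Icc 1 (q - 1) : Finset ℕ) :=
          fun a _ b _ h => Nat.eq_of_mul_eq_mul_left (by omega) h
        rw [level, Finset.sum_image hinj, hΛ]
        have h2 : ∑ x ∈ Finset.Icc 1 (q - 1), (1 : ℝ) / ((y + 1) * x : ℕ) =
            (∑ x ∈ Finset.Icc 1 (q - 1), (x : ℝ)⁻¹) / ((y + 1 : ℕ) : ℝ) := by
          rw [Finset.sum_div]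
          refine Finset.sum_congr rfl ?_
          intro x hx
          push_cast
          rw [one_div, mul_inv, div_eq_mul_inv, mul_comm]
        rw [h2]
        have h3 : Real.log q ≤ ∑ x ∈ Finset.Icc 1 (q - 1), (x : ℝ)⁻¹ := by
          have h4 := log_add_one_le_harmonic (q - 1)
          have h5 : ((q - 1 : ℕ) : ℝ) + 1 = q := by
            have := hq.one_le
            push_cast [Nat.cast_sub this]
            ring
          rw [show ((q - 1 + 1 : ℕ) : ℝ) = (q : ℝ) by push_cast; exact h5] at h4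
          rw [harmonic_eq_sum_Icc] at h4
          push_cast at h4
          exact h4
        gcongr
    · refine ⟨N, A, hG, ⟨hG.pos, ?_⟩, hc.trans (Nat.pow_le_pow_left (by omega) 2), ?_⟩
      · intro m hm
        rw [hI.2 m hm]
        constructor
        · intro h; omega
        · intro h
          rcases Nat.lt_or_ge y m with h1 | h1
          · exfalso
            apply hpp
            have : m = y + 1 := by omega
            rwa [← this]
          · exact h1
      · rw [Finset.sum_Icc_succ_top (by omega), ArithmeticFunction.vonMangoldt_eq_zero_iff.2 hpp]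
        simpa using hs

theorem sum_vonMangoldt_div_ge (y : ℕ) (hy : 1 ≤ y) :
    Real.log y - 1 ≤ ∑ n ∈ Finset.Icc 1 y, ArithmeticFunction.vonMangoldt n / n := by
  have hy' : (0 : ℝ) < y := by exact_mod_cast hy
  -- log y! ≤ y * sum
  have h1 : Real.log (y.factorial : ℝ) =
      ∑ n ∈ Finset.Icc 1 y, ∑ d ∈ n.divisors, ArithmeticFunction.vonMangoldt d := by
    have : ∀ n : ℕ, Real.log (n.factorial : ℝ) = ∑ m ∈ Finset.Icc 1 n, Real.log m := by
      intro n
      induction n with
      | zero => simp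
      | succ n ih =>
        rw [Nat.factorial_succ, Finset.sum_Icc_succ_top (by omega), ← ih]
        push_cast
        rw [Real.log_mul (by positivity) (by positivity)]
        ring
    rw [this]
    exact Finset.sum_congr rfl (fun n _ => ArithmeticFunction.vonMangoldt_sum.symm)
  have h2 : ∑ n ∈ Finset.Icc 1 y, ∑ d ∈ n.divisors, ArithmeticFunction.vonMangoldt d =
      ∑ d ∈ Finset.Icc 1 y, ArithmeticFunction.vonMangoldt d * ((y / d : ℕ) : ℝ) := by
    have e1 : ∀ n ∈ Finset.Icc 1 y, ∑ d ∈ n.divisors, ArithmeticFunction.vonMangoldt d =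
        ∑ d ∈ Finset.Icc 1 y, if d ∣ n then ArithmeticFunction.vonMangoldt d else 0 := by
      intro n hn
      rw [Finset.mem_Icc] at hn
      rw [← Finset.sum_filter]
      refine Finset.sum_congr ?_ (fun _ _ => rfl)
      ext d
      simp only [Nat.mem_divisors, Finset.mem_filter, Finset.mem_Icc]
      constructor
      · rintro ⟨h, h0⟩
        have := Nat.pos_of_dvd_of_pos h (by omega)
        have := Nat.le_of_dvd (by omega) h
        exact ⟨by omega, h⟩
      · rintro ⟨-, h⟩
        exact ⟨h, by omega⟩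
    rw [Finset.sum_congr rfl e1, Finset.sum_comm]
    refine Finset.sum_congr rfl ?_
    intro d hd
    rw [← Finset.sum_filter, Finset.sum_const, nsmul_eq_mul, mul_comm]
    congr 2
    have := Nat.Ioc_filter_dvd_card_eq_div y d
    rw [← this]
    rfl
  have h3 : Real.log (y.factorial : ℝ) ≤
      y * ∑ n ∈ Finset.Icc 1 y, ArithmeticFunction.vonMangoldt n / n := by
    rw [h1, h2, Finset.mul_sum]
    refine Finset.sum_le_sum ?_
    intro d hd
    have h5 : (0 : ℝ) ≤ ArithmeticFunction.vonMangoldt d := ArithmeticFunction.vonMangoldt_nonneg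
    have h6 : ((y / d : ℕ) : ℝ) ≤ (y : ℝ) / d := Nat.cast_div_le
    calc ArithmeticFunction.vonMangoldt d * ((y / d : ℕ) : ℝ)
        ≤ ArithmeticFunction.vonMangoldt d * ((y : ℝ) / d) := by gcongr
      _ = y * (ArithmeticFunction.vonMangoldt d / d) := by ring
  have h4 : (y : ℝ) * Real.log y - y ≤ Real.log (y.factorial : ℝ) := by
    have h5 := Real.pow_div_factorial_le_exp (y : ℝ) hy'.le y
    have h6 : (y : ℝ) ^ y ≤ Real.exp y * y.factorial := by
      rwa [div_le_iff₀ (by positivity)] at h5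
    have h7 := Real.log_le_log (by positivity) h6
    rw [Real.log_mul (by positivity) (by positivity), Real.log_exp, Real.log_pow] at h7
    linarith
  have h5 : (y : ℝ) * (Real.log y - 1) ≤
      y * ∑ n ∈ Finset.Icc 1 y, ArithmeticFunction.vonMangoldt n / n := by
    linarith
  exact le_of_mul_le_mul_left h5 hy'

/-- Adding powers of two. -/
theorem exists_good_add {N : ℕ} {A : Finset ℕ} (hG : Good N A) (h3 : 3 ∣ N) (i : ℕ) :
    ∃ A', A ⊆ A' ∧ Good (N * 2 ^ i) A' ∧ A'.card = A.card + i ∧ (0 < i → N * 2 ^ i ∉ A') := by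
  induction i with
  | zero => exact ⟨A, Finset.Subset.refl _, by simpa using hG, rfl, by omega⟩
  | succ i ih =>
    obtain ⟨A', hsub, hG', hc, -⟩ := ih
    obtain ⟨j, N', hN', hNj⟩ := Nat.exists_eq_two_pow_mul_odd (n := N * 2 ^ i) hG'.pos.ne'
    have hm : ¬ 2 ^ (j + 1) ∣ N * 2 ^ i := by
      rw [hNj, pow_succ]
      intro h
      have := (mul_dvd_mul_iff_left (pow_pos two_pos j).ne').1 h
      exact (Nat.not_even_iff_odd.2 hN') (even_iff_two_dvd.2 this)
    have hj : 2 ^ j ∣ N * 2 ^ i := by rw [hNj]; exact dvd_mul_right _ _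
    have hd : ∀ d, 1 ≤ d → d < 2 → d ∣ N * 2 ^ i := by
      intro d h1 h2
      have : d = 1 := by omega
      subst this
      exact one_dvd _
    have h := hG'.step Nat.prime_two hm j rfl hj hd
    refine ⟨A' ∪ level (2 ^ (j + 1)) 2, hsub.trans Finset.subset_union_left, ?_, ?_, ?_⟩
    · have e : N * 2 ^ (i + 1) = N * 2 ^ i * 2 := by ring
      rw [e]; exact h
    · rw [Finset.card_union_of_disjoint (level_disjoint hG' hm), card_level (by positivity), hc]
      omega
    · intro _ hmem
      rcases Finset.mem_union.1 hmem with h1 | h1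
      · have h2 := Nat.le_of_dvd hG'.pos (hG'.dvd _ h1)
        have h4 := hG'.pos
        rw [pow_succ, ← mul_assoc] at h2
        omega
      · obtain ⟨d, hd1, hd2, hd3⟩ := mem_level.1 h1
        have hd' : d = 1 := by omega
        rw [hd', mul_one] at hd3
        have h5 : 3 ∣ 2 ^ (j + 1) := by
          rw [hd3]
          exact h3.trans (dvd_mul_right _ _)
        have h6 := Nat.Prime.dvd_of_dvd_pow Nat.prime_three h5
        omega

theorem recip_le (S : Finset ℕ) (k : ℕ) (hk : 1 ≤ k) (hS : S.card = k) (h1 : ∀ n ∈ S, 1 < n) :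
    ∑ n ∈ S, (1 : ℝ) / n ≤ 2 + Real.log k := by
  classical
  have hk' : (0 : ℝ) < k := by exact_mod_cast hk
  rw [← Finset.sum_filter_add_sum_filter_not S (fun n => n ≤ k)]
  have h2 : ∑ n ∈ S.filter (fun n => n ≤ k), (1 : ℝ) / n ≤ 1 + Real.log k := by
    have h3 := harmonic_le_one_add_log k
    rw [harmonic_eq_sum_Icc] at h3
    push_cast at h3
    refine le_trans ?_ h3
    simp only [one_div]
    refine Finset.sum_le_sum_of_subset_of_nonneg ?_ (fun _ _ _ => by positivity)
    intro n hn
    rw [Finset.mem_filter] at hn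
    have := h1 n hn.1
    rw [Finset.mem_Icc]
    exact ⟨by omega, hn.2⟩
  have h3 : ∑ n ∈ S.filter (fun n => ¬ n ≤ k), (1 : ℝ) / n ≤ 1 := by
    calc ∑ n ∈ S.filter (fun n => ¬ n ≤ k), (1 : ℝ) / n
        ≤ ∑ n ∈ S.filter (fun n => ¬ n ≤ k), (1 : ℝ) / k := by
          refine Finset.sum_le_sum ?_
          intro n hn
          rw [Finset.mem_filter, not_le] at hn
          have : (k : ℝ) ≤ n := by exact_mod_cast hn.2.le
          exact one_div_le_one_div_of_le hk' this
      _ = ((S.filter (fun n => ¬ n ≤ k)).card : ℝ) * (1 / k) := by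
          rw [Finset.sum_const, nsmul_eq_mul]
      _ ≤ (k : ℝ) * (1 / k) := by
          have : (S.filter (fun n => ¬ n ≤ k)).card ≤ k := by
            rw [← hS]; exact Finset.card_filter_le _ _
          have : ((S.filter (fun n => ¬ n ≤ k)).card : ℝ) ≤ k := by exact_mod_cast this
          gcongr
      _ = 1 := by field_simp
  linarith

theorem bddAbove_set (k : ℕ) (hk : 1 ≤ k) :
    BddAbove {x : ℝ | ∃ S : Finset ℕ, S.card = k ∧ IsIrredCoveringSet S ∧
      x = ∑ n ∈ S, (1 : ℝ) / n} := by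
  refine ⟨2 + Real.log k, ?_⟩
  rintro x ⟨S, hS, hirr, rfl⟩
  exact recip_le S k hk hS hirr.1.1

theorem maxRecip_le (k : ℕ) (hk : 1 ≤ k) : maxRecip k ≤ 2 + Real.log k := by
  have h0 : 0 ≤ Real.log k := Real.log_nonneg (by exact_mod_cast hk)
  apply Real.sSup_le
  · rintro x ⟨S, hS, hirr, rfl⟩
    exact recip_le S k hk hS hirr.1.1
  · linarith

theorem le_maxRecip (y k : ℕ) (hy : 3 ≤ y) (hk : y ^ 2 + 2 ≤ k) :
    Real.log y - 1 ≤ maxRecip k := by
  obtain ⟨N, A, hG, hI, hc, hs⟩ := exists_good y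
  have h3 : 3 ∣ N := hI.dvd_of_le (by omega) hy
  obtain ⟨A', hsub, hG', hc', hN⟩ := exists_good_add hG h3 (k - 1 - A.card)
  have hipos : 0 < k - 1 - A.card := by omega
  have hN' := hN hipos
  have hN1 : 1 < N * 2 ^ (k - 1 - A.card) := by
    have h4 : 3 ≤ N := Nat.le_of_dvd hG.pos h3
    have h5 : 1 ≤ 2 ^ (k - 1 - A.card) := Nat.one_le_two_pow
    nlinarith
  have hirr := hG'.irred hN' hN1
  have hcard : (insert (N * 2 ^ (k - 1 - A.card)) A').card = k := by
    rw [Finset.card_insert_of_notMem hN', hc']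
    omega
  have h6 : ∑ n ∈ insert (N * 2 ^ (k - 1 - A.card)) A', (1 : ℝ) / n ≤ maxRecip k :=
    le_csSup (bddAbove_set k (by omega)) ⟨_, hcard, hirr, rfl⟩
  have h7 : ∑ n ∈ A, (1 : ℝ) / n ≤ ∑ n ∈ insert (N * 2 ^ (k - 1 - A.card)) A', (1 : ℝ) / n :=
    Finset.sum_le_sum_of_subset_of_nonneg
      (hsub.trans (Finset.subset_insert _ _)) (fun _ _ _ => by positivity)
  have h8 := sum_vonMangoldt_div_ge y (by omega)
  linarith

/-- `M(k)` has order of growth exactly `log k`. -/
theorem result : ∃ c C : ℝ, 0 < c ∧ 0 < C ∧ ∀ᶠ k : ℕ in Filter.atTop,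
    c * Real.log k ≤ maxRecip k ∧ maxRecip k ≤ C * Real.log k := by
  refine ⟨1 / 6, 3, by norm_num, by norm_num, ?_⟩
  have hlog : Filter.Tendsto (fun k : ℕ => Real.log (k : ℝ)) Filter.atTop Filter.atTop :=
    Real.tendsto_log_atTop.comp tendsto_natCast_atTop_atTop
  filter_upwards [hlog.eventually_ge_atTop 6, Filter.eventually_ge_atTop 18] with k hk6 hk18
  constructor
  · set y := Nat.sqrt (k - 2) with hy
    have hy1 : y * y ≤ k - 2 := Nat.sqrt_le (k - 2)
    have hy2 : k - 2 < (y + 1) * (y + 1) := Nat.lt_succ_sqrt (k - 2)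
    have hy4 : 4 ≤ y := by
      rw [hy, Nat.le_sqrt]
      omega
    have h1 := le_maxRecip y k (by omega) (by rw [sq]; omega)
    have h2 : k ≤ y ^ 3 := by
      have h3 : k ≤ (y + 1) * (y + 1) + 1 := by omega
      have h4 : (y + 1) * (y + 1) + 1 ≤ y ^ 3 := by
        have : y * y * 4 ≤ y ^ 3 := by
          rw [pow_succ, sq]
          exact Nat.mul_le_mul_left _ hy4
        nlinarith
      exact h3.trans h4
    have h5 : Real.log k ≤ 3 * Real.log y := by
      have h6 : (k : ℝ) ≤ (y : ℝ) ^ 3 := by exact_mod_cast h2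
      have h7 := Real.log_le_log (by positivity) h6
      rw [Real.log_pow] at h7
      exact_mod_cast h7
    linarith
  · have := maxRecip_le k (by omega)
    linarith

end Pool.Agent.Results.MP_cc5630_nt.OrderOfGrowth
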